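import Pool.Agent.Y787.PFour

/-!
# The `p`-adic strong four exponentials conjecture: the counterexamples form a family of bounded
dimension

Let `W` be a space of finite dimension over the field `ℚ̄` of the algebraic numbers which consists of
linear forms in `1` and `p`-adic logarithms of algebraic numbers.  The singular `2 × 2` matrices with
entries in `W` whose rows and whose columns are linearly independent over `ℚ̄` lie in an algebraic
subset of dimension at most `12` of the space of all matrices with entries in `W`, and their entries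
lie in an algebraic subset of `W` of dimension at most `8`.  The bounds do not depend on `W`.  Here a
set lies in an algebraic subset of dimension at most `n` if and only if any `n + 1` linear forms
satisfy a nontrivial polynomial relation on it.

Consequently, if `λ_1, ..., λ_9` in `W` are linearly independent then for all `b` outside a
hypersurface no counterexample with entries in `W` has an entry `b_1 λ_1 + ... + b_9 λ_9`.

The complex analogue is the starting result `MP_a4edf3_nt.CounterexampleDimension`.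
-/

set_option autoImplicit false

namespace Pool.Agent.Results.MP_dd0d16_nt.CounterexampleDimension

/-- `L` is the Iwasawa logarithm on the algebraic closure of `ℚ_p`. -/
structure IsIwasawaLog (p : ℕ) [Fact p.Prime] (L : PadicAlgCl p → PadicAlgCl p) : Prop where
  mul : ∀ x y : PadicAlgCl p, x ≠ 0 → y ≠ 0 → L (x * y) = L x + L y
  prime : L ((p : ℕ) : PadicAlgCl p) = 0
  ser : ∀ z : PadicAlgCl p, ‖z‖ < 1 →
    HasSum (fun n : ℕ => (-1 : PadicAlgCl p) ^ n * z ^ (n + 1) / ((n : PadicAlgCl p) + 1))
      (L (1 + z))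

/-- The space of all linear combinations with algebraic coefficients of `1` and of the values of `L`
at algebraic numbers. -/
noncomputable def LogForms {p : ℕ} [Fact p.Prime] (L : PadicAlgCl p → PadicAlgCl p) :
    Submodule (algebraicClosure ℚ (PadicAlgCl p)) (PadicAlgCl p) :=
  Submodule.span (algebraicClosure ℚ (PadicAlgCl p))
    ({1} ∪ {z | ∃ α : PadicAlgCl p, α ≠ 0 ∧ IsAlgebraic ℚ α ∧ z = L α})

/-- The matrix `M` with entries in `W` is singular, and its rows and its columns are linearly
independent over the algebraic numbers. -/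
def IsCounterexample {p : ℕ} [Fact p.Prime]
    {W : Submodule (algebraicClosure ℚ (PadicAlgCl p)) (PadicAlgCl p)}
    (M : Matrix (Fin 2) (Fin 2) W) : Prop :=
  (M 0 0 : PadicAlgCl p) * M 1 1 = M 0 1 * M 1 0 ∧
    LinearIndependent (algebraicClosure ℚ (PadicAlgCl p)) (fun i j => (M i j : PadicAlgCl p)) ∧
    LinearIndependent (algebraicClosure ℚ (PadicAlgCl p)) (fun j i => (M i j : PadicAlgCl p))

/-- **Main result.** -/
theorem result (p : ℕ) [Fact p.Prime] (L : PadicAlgCl p → PadicAlgCl p) (hL : IsIwasawaLog p L)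
    (W : Submodule (algebraicClosure ℚ (PadicAlgCl p)) (PadicAlgCl p))
    [FiniteDimensional (algebraicClosure ℚ (PadicAlgCl p)) W] (hW : W ≤ LogForms L) :
    (∀ φ : Fin 13 → (Matrix (Fin 2) (Fin 2) W →ₗ[algebraicClosure ℚ (PadicAlgCl p)]
        algebraicClosure ℚ (PadicAlgCl p)),
      ∃ P : MvPolynomial (Fin 13) (algebraicClosure ℚ (PadicAlgCl p)), P ≠ 0 ∧
        ∀ M : Matrix (Fin 2) (Fin 2) W, IsCounterexample M →
          MvPolynomial.eval (fun k => φ k M) P = 0) ∧
    (∀ φ : Fin 9 → (W →ₗ[algebraicClosure ℚ (PadicAlgCl p)] algebraicClosure ℚ (PadicAlgCl p)),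
      ∃ P : MvPolynomial (Fin 9) (algebraicClosure ℚ (PadicAlgCl p)), P ≠ 0 ∧
        ∀ M : Matrix (Fin 2) (Fin 2) W, IsCounterexample M →
          ∀ i j, MvPolynomial.eval (fun k => φ k (M i j)) P = 0) ∧
    ∀ l : Fin 9 → W, LinearIndependent (algebraicClosure ℚ (PadicAlgCl p)) l →
      ∃ Δ : MvPolynomial (Fin 9) (algebraicClosure ℚ (PadicAlgCl p)), Δ ≠ 0 ∧
        ∀ b : Fin 9 → algebraicClosure ℚ (PadicAlgCl p), MvPolynomial.eval b Δ ≠ 0 →
          ∀ M : Matrix (Fin 2) (Fin 2) W, IsCounterexample M →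
            ∀ i j, M i j ≠ ∑ k, b k • l k := by
  have hL' : Pool.Agent.W245.PB.IsIwasawaLog p L := ⟨hL.mul, hL.prime, hL.ser⟩
  refine ⟨fun φ => ?_, fun φ => ?_, fun l hl => ?_⟩
  · obtain ⟨P, h1, h2⟩ := Pool.Agent.Y787.matP_dim hL' W hW φ
    exact ⟨P, h1, fun M hM => h2 M (Pool.Agent.Y787.FE.ctr_of_li M hM.1 hM.2.1 hM.2.2)⟩
  · obtain ⟨P, h1, h2⟩ := Pool.Agent.Y787.entP_dim hL' W hW φ
    exact ⟨P, h1, fun M hM => h2 M (Pool.Agent.Y787.FE.ctr_of_li M hM.1 hM.2.1 hM.2.2)⟩
  · obtain ⟨P, h1, h2⟩ := Pool.Agent.Y787.genericP hL' W hW l hl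
    exact ⟨P, h1, fun b hb M hM =>
      h2 b hb M (Pool.Agent.Y787.FE.ctr_of_li M hM.1 hM.2.1 hM.2.2)⟩

end Pool.Agent.Results.MP_dd0d16_nt.CounterexampleDimension
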