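import Pool.Agent.Y787.PFin

/-!
# Quadratic relations between `p`-adic logarithms: almost all are trivial

The `p`-adic strong four exponentials conjecture concerns the zeros of the quadratic form
`a d - b c` (the case `m = R = 4` below): it says that a zero in linear forms in `1` and `p`-adic
logarithms lies in a totally isotropic subspace defined over `ℚ̄`.  More generally, if
`ℚ`-linearly independent `p`-adic logarithms of algebraic numbers are algebraically independent,
then a quadratic form `S` over the field `ℚ̄` of algebraic numbers vanishes at a tuple `y` of linear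
forms in `p`-adic logarithms only if `y` lies in a subspace defined over `ℚ̄` on which `S` vanishes
identically.  Let `S` be a form of rank `R` in `m` variables and `2 r ≥ 2 m - R - 4`.

* Dimension.  Let `W` be a space of dimension `N` over `ℚ̄` which consists of linear forms in `1` and
  `p`-adic logarithms of algebraic numbers.  The zeros of `S` in `W ^ m` which are not in a totally
  isotropic subspace defined over `ℚ̄` lie in an algebraic subset of dimension at most
  `r N + m (m - 1) + m (m - 3)`.
* Counting.  The corresponding bound for integer matrices of height at most `H`.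

The complex analogue is the starting result `MP_60829e_nt.QuadraticRelations`; the library
`Pool.Agent.Y787` redoes its proof over an arbitrary algebraically closed field for a space with the
hyperplane property, which holds for the `p`-adic logarithm by `Pool.Agent.W254.PA`.
-/

set_option autoImplicit false

namespace Pool.Agent.Results.MP_dd0d16_nt.QuadraticRelations

/-- `L` is the Iwasawa logarithm on the algebraic closure of `ℚ_p`. -/
structure IsIwasawaLog (p : ℕ) [Fact p.Prime] (L : PadicAlgCl p → PadicAlgCl p) : Prop where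
  mul : ∀ x y : PadicAlgCl p, x ≠ 0 → y ≠ 0 → L (x * y) = L x + L y
  prime : L ((p : ℕ) : PadicAlgCl p) = 0
  ser : ∀ z : PadicAlgCl p, ‖z‖ < 1 →
    HasSum (fun n : ℕ => (-1 : PadicAlgCl p) ^ n * z ^ (n + 1) / ((n : PadicAlgCl p) + 1))
      (L (1 + z))

/-- The space of all linear combinations with algebraic coefficients of `1` and of the values of `L`
at algebraic numbers. -/
noncomputable def LogForms {p : ℕ} [Fact p.Prime] (L : PadicAlgCl p → PadicAlgCl p) :
    Submodule (algebraicClosure ℚ (PadicAlgCl p)) (PadicAlgCl p) :=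
  Submodule.span (algebraicClosure ℚ (PadicAlgCl p))
    ({1} ∪ {z | ∃ α : PadicAlgCl p, α ≠ 0 ∧ IsAlgebraic ℚ α ∧ z = L α})

/-- The bilinear form `∑ i, ∑ j, S i j * y i * z j`. -/
noncomputable def form {p : ℕ} [Fact p.Prime] {m : ℕ}
    (S : Matrix (Fin m) (Fin m) (algebraicClosure ℚ (PadicAlgCl p)))
    (y z : Fin m → PadicAlgCl p) : PadicAlgCl p :=
  ∑ i, ∑ j, (S i j : PadicAlgCl p) * y i * z j

/-- The tuple `y` is a linear combination, with coefficients `c a` in the algebraic closure of
`ℚ_p`, of vectors `u a` with coordinates in the field `K` on which the form `S` vanishes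
identically: `y` lies in a totally isotropic subspace defined over `K`. -/
def InIsotropicSubspace {p : ℕ} [Fact p.Prime] (K : Type) [Field K] [Algebra K (PadicAlgCl p)]
    {m : ℕ} (S : Matrix (Fin m) (Fin m) (algebraicClosure ℚ (PadicAlgCl p)))
    (y : Fin m → PadicAlgCl p) : Prop :=
  ∃ (s : ℕ) (u : Fin s → Fin m → K) (c : Fin s → PadicAlgCl p),
    (∀ a b, form S (fun i => algebraMap K (PadicAlgCl p) (u a i))
      (fun i => algebraMap K (PadicAlgCl p) (u b i)) = 0) ∧
    ∀ i, y i = ∑ a, c a * algebraMap K (PadicAlgCl p) (u a i)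

/-- **Main result.** -/
theorem result (p : ℕ) [Fact p.Prime] (L : PadicAlgCl p → PadicAlgCl p) (hL : IsIwasawaLog p L)
    (m r : ℕ) (S : Matrix (Fin m) (Fin m) (algebraicClosure ℚ (PadicAlgCl p))) (hS : S.IsSymm)
    (hr : 2 * m ≤ 2 * r + S.rank + 4) :
    (∀ (W : Submodule (algebraicClosure ℚ (PadicAlgCl p)) (PadicAlgCl p))
      [FiniteDimensional (algebraicClosure ℚ (PadicAlgCl p)) W], W ≤ LogForms L →
      ∀ φ : Fin (r * Module.finrank (algebraicClosure ℚ (PadicAlgCl p)) W + m * (m - 1) +
          m * (m - 3) + 1) →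
        ((Fin m → W) →ₗ[algebraicClosure ℚ (PadicAlgCl p)] algebraicClosure ℚ (PadicAlgCl p)),
      ∃ P : MvPolynomial (Fin (r * Module.finrank (algebraicClosure ℚ (PadicAlgCl p)) W +
          m * (m - 1) + m * (m - 3) + 1)) (algebraicClosure ℚ (PadicAlgCl p)), P ≠ 0 ∧
        ∀ y : Fin m → W, form S (fun i => (y i : PadicAlgCl p)) (fun i => (y i : PadicAlgCl p)) = 0 →
          ¬ InIsotropicSubspace (algebraicClosure ℚ (PadicAlgCl p)) S
            (fun i => (y i : PadicAlgCl p)) →
          MvPolynomial.eval (fun k => φ k y) P = 0) ∧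
    ∀ (N : ℕ) (l : Fin N → PadicAlgCl p),
      (∀ j, ∃ α : PadicAlgCl p, α ≠ 0 ∧ IsAlgebraic ℚ α ∧ l j = L α) →
      LinearIndependent ℚ l →
      ∃ κ : ℕ, ∀ H : ℕ, 1 ≤ H →
        Set.ncard {A : Fin m → Fin N → ℤ | (∀ i k, |A i k| ≤ H) ∧
          form S (fun i => ∑ k, (A i k : PadicAlgCl p) * l k)
            (fun i => ∑ k, (A i k : PadicAlgCl p) * l k) = 0 ∧
          ¬ InIsotropicSubspace ℚ S (fun i => ∑ k, (A i k : PadicAlgCl p) * l k)} ≤
        κ * H ^ (r * N + m * (m - 1) + m * (m - 3)) :=
  have hL' : Pool.Agent.W245.PB.IsIwasawaLog p L := ⟨hL.mul, hL.prime, hL.ser⟩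
  ⟨fun W _ hW φ => Pool.Agent.Y787.quadP_dim hL' W hW S hS hr φ,
    fun _ l hl hli => Pool.Agent.Y787.quadP_count hL' S hS hr l hl hli⟩

end Pool.Agent.Results.MP_dd0d16_nt.QuadraticRelations
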