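import Pool.Agent.Y921.PX.Fin

/-!
# `p`-adic strong four exponentials over number fields: power saving for tuples of integers
-/

set_option autoImplicit false

namespace Pool.Agent.Results.MP_dd0d16_nt.TuplesPowerSaving

open Module

/-- `L` is the Iwasawa `p`-adic logarithm on the algebraic closure of `ℚ_p`. -/
def IsIwasawaLog (p : ℕ) [Fact p.Prime] (L : PadicAlgCl p → PadicAlgCl p) : Prop :=
  (∀ x y : PadicAlgCl p, x ≠ 0 → y ≠ 0 → L (x * y) = L x + L y) ∧
  L ((p : ℕ) : PadicAlgCl p) = 0 ∧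
  ∀ z : PadicAlgCl p, ‖z‖ < 1 →
    HasSum (fun n : ℕ => (-1 : PadicAlgCl p) ^ n * z ^ (n + 1) / ((n : PadicAlgCl p) + 1))
      (L (1 + z))

/-- The `l i` are linearly independent modulo `V`, and every `2 × 2` matrix over `V + span l` which has an entry
outside `V`, `K`-linearly independent rows and `K`-linearly independent columns has determinant `≠ 0`. -/
def StrongFour {K A : Type} [Field K] [Field A] [Algebra K A] (V : Submodule K A) {k : ℕ} (l : Fin k → A) : Prop :=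
  finrank K (V ⊔ Submodule.span K (Set.range l) : Submodule K A) = finrank K V + k ∧
    ∀ M : Matrix (Fin 2) (Fin 2) A, (∀ i j, M i j ∈ V ⊔ Submodule.span K (Set.range l)) → (∃ i j, M i j ∉ V) →
      LinearIndependent K (fun i : Fin 2 => fun j : Fin 2 => M i j) →
      LinearIndependent K (fun j : Fin 2 => fun i : Fin 2 => M i j) → M.det ≠ 0

/-- **Main result.** -/
theorem result (k d m : ℕ) : ∃ c : ℝ, 0 < c ∧ ∃ C : ℝ, ∀ (p : ℕ) [Fact p.Prime] (L : PadicAlgCl p → PadicAlgCl p),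
    IsIwasawaLog p L → ∀ K : IntermediateField ℚ (PadicAlgCl p), FiniteDimensional ℚ K → finrank ℚ K ≤ d →
    ∀ V : Submodule K (PadicAlgCl p), Module.Finite K V → finrank K V ≤ m →
    ∀ T : ℕ, 1 ≤ T → ∃ B : Finset (Fin k → ℕ), (B.card : ℝ) ≤ C * p * (T : ℝ) ^ ((k : ℝ) - c) ∧
      ∀ n : Fin k → ℕ, (∀ i, 1 ≤ n i ∧ n i ≤ T) → n ∉ B → StrongFour V (fun i => L (n i : PadicAlgCl p)) := by
  obtain ⟨c, hc, C, -, h⟩ := Pool.Agent.Y921.PX.tuples_good k d m
  refine ⟨c, hc, C, fun p _ L hL K hK hKd V hV hVm T hT => ?_⟩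
  obtain ⟨B, hB, hgood⟩ := h p (PadicAlgCl p) L ⟨hL.1, hL.2.1, hL.2.2⟩ K hK hKd V hV hVm T hT
  refine ⟨B, hB, fun n hn hnB => ?_⟩
  have hg := hgood n hn hnB
  exact ⟨by simpa using hg.1, fun M hM hne hrow hcol => hg.det_ne_zero M hM hne hrow hcol⟩

end Pool.Agent.Results.MP_dd0d16_nt.TuplesPowerSaving
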